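import Pool.Agent.H937.ConstMain

/-!
# MP_6d0ce9_ag : the motivic t-structure on constant motives over a function field

`S` is a rigid tensor triangulated category with a bounded t-structure `t₀` for which the tensor
product is t-exact, and whose unit has no idempotent endomorphisms but `0` and `1`. `P : S ⥤ T` is a
triangulated tensor functor to a tensor triangulated category with nonzero unit, and `T` is
generated by the objects `P A` as a triangulated category. The `R i : T ⥤ D i` are triangulated
functors to categories with t-structures `s i` for which the `R i ∘ P` are t-exact. `ConstHom t₀ P d`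
describes the morphisms `P A ⟶ P B`.

For the problem : let `k₀` be a field, `U` a smooth affine geometrically connected variety of
dimension `d` over `k₀` and `K = k₀(U)`. Let `S` be a tensor triangulated subcategory of `DM_c(k₀)`
which contains the objects `N_V = p_* 1_V` for arbitrarily small open affine `V ⊆ U`
(`p : V → Spec k₀`), and which has a motivic t-structure. Let `P` be the base change to `K` and
`T ⊆ DM_c(K)` the triangulated subcategory generated by the constant motives `P A`, `A ∈ S`. Then
`ConstHom t₀ P d` holds : a morphism `f : P A ⟶ P B` extends to some `V` as above, where it is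
adjoint to some `g : A ⟶ p_* p^* B = B ⊗ N_V`, so that `f` is `P g` followed by the counit
`P N_V ⟶ 1` tensored with `P B`; and the cone of the unit `1 ⟶ N_V` is concentrated in degrees
`1, …, d`, since its realisations are (`H⁰(V) = ℚ_ℓ`, and `V` is affine).

**Theorem.** There is a t-structure `t` on `T` which is non-degenerate, bounded, compatible with the
tensor product, and such that all the `R i` and `P` are t-exact. For `A ≤ 0` and `B ≥ 0` in `S` the
map `Hom(A, B) → Hom(P A, P B)` is bijective; in particular the heart of `S` is a full subcategory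
of the heart of `T`. If the cohomological dimension of `t₀` is at most `e`, that of `t` is at most
`e + d`.

Unconditional case : `k₀` an algebraic closure of a finite field, `S` generated by the motives of
products of elliptic curves and abelian surfaces (or another class of abelian varieties satisfying
Tate's conjecture); by Soulé, Geisser, Kahn `S` is semisimple, so that it has a motivic t-structure
of cohomological dimension `0` (see the library result `AbelianTypeFiniteField`). For `d = 1` the
`N_V` belong to `S` if the smooth completion `C` of `U` is, for example, of genus at most `2`. So the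
category `T` of mixed motives over the function field `k₀(C)` generated by constant motives of this
type has a motivic t-structure, and its cohomological dimension is at most `1`. (It is not
semisimple : for example `Ext¹(1, 1(1))` is the group of units of `k₀(C)` tensored with `ℚ`.)
-/

open CategoryTheory Limits MonoidalCategory Triangulated Pretriangulated

namespace Pool.Agent.Results.MP_6d0ce9_ag.ConstantMotives

open Pool.Agent.W492.MT
open Pool.Agent.H937.AS (ConstHom HomDim)

universe v u v₀ u₀ v' u'

theorem result {S : Type u₀} [Category.{v₀} S] [HasZeroObject S] [HasShift S ℤ] [Preadditive S]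
    [∀ n : ℤ, (shiftFunctor S n).Additive] [Pretriangulated S] [IsTriangulated S]
    [MonoidalCategory S] [SymmetricCategory S] [RightRigidCategory S]
    [∀ X : S, (tensorLeft X).CommShift ℤ] [∀ X : S, (tensorLeft X).IsTriangulated]
    {T : Type u} [Category.{v} T] [HasZeroObject T] [HasShift T ℤ] [Preadditive T]
    [∀ n : ℤ, (shiftFunctor T n).Additive] [Pretriangulated T] [IsTriangulated T]
    [MonoidalCategory T] [MonoidalPreadditive T] [SymmetricCategory T] [RightRigidCategory T]
    [∀ X : T, (tensorLeft X).CommShift ℤ] [∀ X : T, (tensorLeft X).IsTriangulated]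
    (t₀ : TStructure S) (hb : Bounded t₀) (ht : TensorExact t₀)
    (hone : ∀ e : 𝟙_ S ⟶ 𝟙_ S, e ≫ e = e → e = 0 ∨ e = 𝟙 _)
    (P : S ⥤ T) [P.CommShift ℤ] [P.IsTriangulated] [P.Monoidal] (hT : ¬ IsZero (𝟙_ T))
    (hgen : ∀ Q : ObjectProperty T, Q.IsClosedUnderIsomorphisms → Q.IsTriangulated →
      (∀ A, Q (P.obj A)) → ∀ M, Q M)
    (d : ℕ) (hP : ConstHom t₀ P d)
    {I : Type} {D : I → Type u'} [∀ i, Category.{v'} (D i)] [∀ i, HasZeroObject (D i)]
    [∀ i, HasShift (D i) ℤ] [∀ i, Preadditive (D i)]
    [∀ i, ∀ n : ℤ, (shiftFunctor (D i) n).Additive] [∀ i, Pretriangulated (D i)]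
    [∀ i, IsTriangulated (D i)]
    (R : ∀ i, T ⥤ D i) [∀ i, (R i).CommShift ℤ] [∀ i, (R i).IsTriangulated]
    (s : ∀ i, TStructure (D i)) (hR : ∀ i, TExact t₀ (s i) (P ⋙ R i)) :
    ∃ t : TStructure T, NonDegenerate t ∧ Bounded t ∧ TensorExact t ∧
      (∀ i, TExact t (s i) (R i)) ∧ TExact t₀ t P ∧
      (∀ A B : S, t₀.le 0 A → t₀.ge 0 B → Function.Bijective (fun g : A ⟶ B => P.map g)) ∧
      ∀ e : ℤ, HomDim t₀ e → HomDim t (e + d) := by
  have h := Pool.Agent.H937.AS.img_asys hb ht hP hgen
  refine ⟨h.t, h.nonDegenerate, h.bounded, h.tensorExact ?_, fun i => h.tExact (s i) (R i) ?_,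
    Pool.Agent.H937.AS.img_exact hb ht hP hgen, fun A B hA hB =>
      Pool.Agent.H937.AS.const_bijective hb (Pool.Agent.H937.AS.nonDegenerate_of_bounded hb) ht
        hone hP hgen hT hA hB,
    fun e he => Pool.Agent.H937.AS.const_dim hb ht hP hgen (Int.natCast_nonneg d) he⟩
  · rintro n m X Y ⟨A, hA1, hA2, ⟨eX⟩⟩ ⟨B, hB1, hB2, ⟨eY⟩⟩
    exact ⟨A ⊗ B, (Pool.Agent.H937.AS.deg_tensor_le ht rfl ⟨hA1⟩ ⟨hB1⟩).le,
      (Pool.Agent.H937.AS.deg_tensor_ge ht rfl ⟨hA2⟩ ⟨hB2⟩).ge,
      ⟨(eX ⊗ᵢ eY) ≪≫ Functor.Monoidal.μIso P A B⟩⟩
  · rintro n X ⟨A, hA1, hA2, ⟨eX⟩⟩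
    exact ⟨((s i).le n).prop_of_iso ((R i).mapIso eX).symm ((hR i n A).1 hA1),
      ((s i).ge n).prop_of_iso ((R i).mapIso eX).symm ((hR i n A).2 hA2)⟩

end Pool.Agent.Results.MP_6d0ce9_ag.ConstantMotives
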