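import Pool.Agent.H939.PD.One

/-!
# MP_6d0ce9_ag : the motivic t-structure : one prime number suffices

`T` is an idempotent complete rigid tensor triangulated category, linear over a field `F` of
characteristic `0`, the `R i : T ⥤ D i` (`i ∈ I`, `I` nonempty) are triangulated tensor functors to
tensor triangulated categories with t-structures `s i`, and `𝒞` is a class of objects of `T`, with
the formal properties listed in the structure `Setup`, with `Lefschetz` (hard Lefschetz), and with
`hind` : if the `i`-realisation of an object of `𝒞` is concentrated in one degree, then the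
`j`-realisation is concentrated in the same degree.
(For the problem : `T = DM_c(k)`, `k` any field of any characteristic, `F = ℚ`, `I` = the primes
`ℓ ≠ char k`, `R ℓ` the `ℓ`-adic realisation, `𝒞` = the Chow motives, that is the direct summands of
the motives `h(V)(r)[2r]` with `V` smooth projective over the perfect closure of `k`. Orthogonality
and generation are due to Voevodsky and Bondarko, hard Lefschetz to Deligne. `hind` : the rank of
the cohomology in degree `n` of a Chow motive is independent of `ℓ`; over a finite field this is a
theorem of Katz and Messing, and the general case follows by specialisation. Nothing of this kind is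
known, or assumed, for the other objects of `DM_c(k)`.)

The following are equivalent.
1. `T` has a non-degenerate t-structure, for which the tensor product is t-exact, and such that ALL
   the `R i` are t-exact (this is Q1 for `k`).
2. For ONE `i` (which may depend on `k`), `T` has a non-degenerate t-structure, for which the tensor
   product is t-exact, and such that `R i` is t-exact.
3. For ONE `i` the functor `R i` is conservative, and every object `M` of `T` sits in a
   distinguished triangle `A → M → B → A⟦1⟧` with `R i A ≤ 0` and `R i B ≥ 1`.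

Moreover a t-structure `t` as in 2 for one `i` automatically works for every `j` : `R j` is
conservative and t-exact, an object `X` is `≤ n` (`≥ n`) for `t` iff `R j X` is, and the functor
`H = t.truncGELE n n : T ⥤ T` lifts the `n`-th cohomology functors of ALL the `R j` :
`R j (H M) ≅ H^n (R j M)`, naturally in `M`. So a motivic t-structure for one prime number forces
all the cohomology groups of all motives `M` in `DM_c(k)`, and the actions of the endomorphisms of
`M` on them, to be independent of `ℓ` (to come from one object and its endomorphisms in `DM_c(k)`).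
-/

open CategoryTheory Limits MonoidalCategory Triangulated Pretriangulated

namespace Pool.Agent.Results.MP_6d0ce9_ag.OnePrimeSuffices

open Pool.Agent.W492.MT

universe v u v' u' w

theorem result {T : Type u} [Category.{v} T] [HasZeroObject T] [HasShift T ℤ] [Preadditive T]
    [∀ n : ℤ, (shiftFunctor T n).Additive] [Pretriangulated T] [IsTriangulated T]
    [IsIdempotentComplete T] [MonoidalCategory T] [SymmetricCategory T] [RightRigidCategory T]
    [∀ X : T, (tensorLeft X).CommShift ℤ] [∀ X : T, (tensorLeft X).IsTriangulated]
    [MonoidalPreadditive T] {F : Type} [Field F] [CharZero F] [Linear F T] [MonoidalLinear F T]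
    {I : Type w} [Nonempty I] {D : I → Type u'} [∀ i, Category.{v'} (D i)]
    [∀ i, HasZeroObject (D i)] [∀ i, HasShift (D i) ℤ] [∀ i, Preadditive (D i)]
    [∀ i, ∀ n : ℤ, (shiftFunctor (D i) n).Additive] [∀ i, Pretriangulated (D i)]
    [∀ i, IsTriangulated (D i)] [∀ i, MonoidalCategory (D i)] [∀ i, MonoidalPreadditive (D i)]
    (R : ∀ i, T ⥤ D i) [∀ i, (R i).CommShift ℤ] [∀ i, (R i).IsTriangulated]
    [∀ i, (R i).Monoidal] (s : ∀ i, TStructure (D i)) (𝒞 : ObjectProperty T)
    (h : Setup R s 𝒞 F) (hL : Lefschetz R s 𝒞)
    (hind : ∀ (X : T) (d : ℤ) (i j : I), 𝒞 X → (s i).le d ((R i).obj X) →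
      (s i).ge d ((R i).obj X) → (s j).le d ((R j).obj X) ∧ (s j).ge d ((R j).obj X)) :
    List.TFAE [
      ∃ t : TStructure T, NonDegenerate t ∧ TensorExact t ∧ ∀ i, TExact t (s i) (R i),
      ∃ (i : I) (t : TStructure T), NonDegenerate t ∧ TensorExact t ∧ TExact t (s i) (R i),
      ∃ i : I, (R i).ReflectsIsomorphisms ∧
        ∀ M : T, ∃ (A B : T) (f : A ⟶ M) (g : M ⟶ B) (k : B ⟶ A⟦(1 : ℤ)⟧),
          Triangle.mk f g k ∈ distTriang T ∧ (s i).le 0 ((R i).obj A) ∧
            (s i).ge 1 ((R i).obj B)] ∧
    ∀ (i : I) (t : TStructure T), NonDegenerate t → TensorExact t → TExact t (s i) (R i) →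
      ∀ j : I, (R j).ReflectsIsomorphisms ∧
        (∀ (n : ℤ) (X : T), (t.le n X ↔ (s j).le n ((R j).obj X)) ∧
          (t.ge n X ↔ (s j).ge n ((R j).obj X))) ∧
        ∀ n : ℤ, Nonempty (t.truncGELE n n ⋙ R j ≅ R j ⋙ (s j).truncGELE n n) :=
  ⟨Pool.Agent.H939.PD.main h hL hind, fun i t h1 h2 h3 j =>
    ⟨(Pool.Agent.H939.PD.all_of_t h hL hind i t h1 h2 h3 j).1,
      (Pool.Agent.H939.PD.all_of_t h hL hind i t h1 h2 h3 j).2.1,
      fun n => (Pool.Agent.H939.PD.all_of_t h hL hind i t h1 h2 h3 j).2.2 n n⟩⟩

end Pool.Agent.Results.MP_6d0ce9_ag.OnePrimeSuffices
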