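import Pool.Agent.H939.PF.Fields

/-!
# MP_6d0ce9_ag : the motivic t-structure depends only on the characteristic

`FieldMotives p Λ` lists formal properties of the categories `DM_c(k)`, for all the fields `k` of
characteristic `p` (in one universe), of their `ℓ`-adic realisations (`ℓ ∈ Λ`, the set of the prime
numbers `ℓ ≠ p`) and of the base change functors along the embeddings of fields.

**Theorem.** Let `k` and `K` be any two fields of the same characteristic `p`.
1. The t-structure of Q1 exists on `DM_c(k)` if and only if it exists on `DM_c(K)`.
2. It exists on `DM_c(K)` if and only if every Chow motive over `k` is a finite direct sum of Chow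
   motives `X` whose realisations are concentrated in one degree `d`, and for such an `X` one has
   `Hom(1, X[m]) = 0` for `m < d` and every nonzero morphism `g : X[d] ⟶ 1` is numerically
   nontrivial.
3. Let `k` be a finite field. It exists on `DM_c(K)` if and only if for every Chow motive `X` over
   `k` one has `Hom(1, X[m]) = 0` for `m ≠ 0` (Parshin's conjecture for `k`) and every nonzero
   morphism `X ⟶ 1` is numerically nontrivial (Beilinson's conjecture for `k`: rational and
   numerical equivalence agree).

So Q1 holds for all fields if and only if it holds for the prime fields `ℚ` and `𝔽_p`; and for all
fields of characteristic `p > 0` it is equivalent to the conjectures of Parshin and Beilinson for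
smooth projective varieties over `𝔽_p`. Known before: one can pass from a field `K` to fields of at
most the same transcendence degree (if that is finite) over the prime field.

## Why `DM_c` has the properties listed in `FieldMotives`

`Setup` and `Lefschetz` are as in the library result `PureCriterion`: duals, `End(1) = ℚ`, weights
(Voevodsky, Bondarko, de Jong), hard Lefschetz (Deligne). Motives with rational coefficients do not
change under purely inseparable extensions, so let `k`, `K` be perfect. Let `K/k` be any extension.
Objects and morphisms of `DM_c(K)` extend to `DM_c(U)`, for an integral variety `U`, smooth over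
`k`, with a point `Spec K → U` over the generic point, such that the extended objects have duals.
Then all the cohomology sheaves of their realisations are lisse, and so nothing is lost if one
passes from such a sheaf on `U` to its pull-back to `Spec K`. Let `p : U → Spec k`.
* `le`, `ge`, `hZero`: the realisation of the base change is the restriction of the realisation
  to the Galois group of `K`.
* `faithfulP`, `specialise`: restrict to a closed point `u` of `U`, and average over `k(u)/k`.
* `pushForward`: a morphism `f : A ⟶ B` over `K` extends to `f_U : A_U ⟶ B_U`. Let
  `N = p_* Hom(A_U, B_U)` and let `y : 1 ⟶ N` be the adjoint of `f_U`. Then `f` is the composite of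
  `y_K ⊗ A : A ⟶ N_K ⊗ A` and the restriction of the evaluation `p^* N ⊗ A_U ⟶ B_U`. Since
  realisations commute with `p_*` and `p_*` is left t-exact, `N` is `≥ b - a` if `A ≤ a` and
  `B ≥ b`, and the realisation of `y` vanishes if that of `f_U` does. This is so if `R f = 0` and
  `A ≤ n`, `B ≥ n`, since then the realisation of `f_U` is given by a morphism of lisse sheaves; and
  it is so for `f = φ ^ r` if `φ` acts by zero on the cohomology and if that lives in `r` successive
  degrees.
* `algebraic`: a Chow motive over `K` comes from a finite extension `L/k`; take its push-forward.
* `models`: let `k` be algebraically closed. A Chow motive `M` over `K` extends to a direct summand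
  `M_U` of the (twisted and shifted) motive of a smooth projective scheme over `U`. Let `u ∈ U(k)`,
  `E = M_u` and `N = p_* Hom(M_U, M_U)`, which acts on `E` by `N ⟶ Hom(M_u, M_u)`. It is of weight
  `≥ 0` (Bondarko, Hébert: it is a direct summand of a twist of the cohomological motive of a smooth
  variety). By Deligne the realisation of `M_U` is the direct sum of its shifted cohomology sheaves
  (this follows from hard Lefschetz). So the projector onto one of them is an endomorphism of the
  realisation of `M_U`, that is, a class `x : 1 ⟶ R N`. A morphism `y : 1 ⟶ N` is an endomorphism of
  `M_U`; if it acts as the projector onto `H^n` on the cohomology of the fibre `M_u`, then it acts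
  in the same way on that of the generic fibre `M`, since the cohomology sheaves are lisse.

The theorem of the fixed part is not used; its analogue for Q1 is a part of the proof.

## The proof

Let the t-structure exist over `k`. Let first `k` be algebraically closed. (1) If `A ≤ n`, `B ≥ m`
over `K` and `n < m`, the object `N` is `≥ 1` and `Hom(1, N) = 0`; so `f = 0`. This gives
orthogonality over `K`, and the conservativity of the realisations. (2) If `R y = 0`, then `y` comes
from `τ^{≤ -1} N`. So `φ ^ r` as above factors through `Q ⊗ A` with `Q ≤ -1`; its powers factor
through `Q ⊗ A` with smaller and smaller `Q`, and so an endomorphism acting by zero on the cohomology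
is nilpotent; in the same way `R f = 0` implies `f = 0` if `A ≤ n` and `B ≥ n`. (3) The class `x` in
the realisation of `N` solves a system of linear equations with values in pure motives of degree
`0`, defined over `k`. Let `N` be any object of weight `≥ 0`. Then such a system has a solution
`y : 1 ⟶ N` over `k` if it has one in a realisation (`Pool.Agent.H939.PF.lift`): the solutions are
the sections of a morphism `Z ⟶ 1`, where `Z` is an object of the heart of weight `≥ 0`, by a
compatibility of the t-structure with weights; and Beilinson's argument (the cone is oddly finite
dimensional) shows that every nonzero morphism `Z ⟶ 1` has a section. So the Kuenneth projectors of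
`M` are induced by endomorphisms of `M`, and by (2) they can be chosen to be idempotent. Now
apply `PureCriterion` over `K`. If `K/k` is algebraic, replace (3) by `algebraic`. Subfields:
`main_down`. In general pass from `k` to its algebraic closure, then to the algebraic closure `k₁` of
the prime field, then to the algebraic closure of `K`, and then to `K`.
-/

open CategoryTheory Limits MonoidalCategory Triangulated Pretriangulated

namespace Pool.Agent.Results.MP_6d0ce9_ag.PrimeFieldsSuffice

open Pool.Agent.H939.PF

universe u v₁ u₁ v₂ u₂ w

theorem result {p : ℕ} {Λ : Type w} [Nonempty Λ] (M : FieldMotives.{u, v₁, u₁, v₂, u₂} p Λ)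
    (k K : Type u) [Field k] [CharP k p] [Field K] [CharP K p] :
    ((M.obj k).HasMotivicTStructure ↔ (M.obj K).HasMotivicTStructure) ∧
    ((M.obj K).HasMotivicTStructure ↔
      (M.obj k).HasKunneth ∧ (M.obj k).Vanishing ∧ (M.obj k).RatEqNum) ∧
    ∀ Fr, (M.obj k).IsFrobenius Fr →
      ((M.obj K).HasMotivicTStructure ↔ (M.obj k).Parshin ∧ (M.obj k).Beilinson) := by
  have h1 : (M.obj k).HasMotivicTStructure ↔ (M.obj K).HasMotivicTStructure :=
    ⟨one_field M k K, one_field M K k⟩
  exact ⟨h1, h1.symm.trans (M.obj k).criterion,
    fun _ hFr => h1.symm.trans ((M.obj k).criterion_finite hFr)⟩

end Pool.Agent.Results.MP_6d0ce9_ag.PrimeFieldsSuffice
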