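import Pool.Agent.H937.SlopeClass

/-!
# MP_6d0ce9_ag : the slope of a tensor t-structure, and what the exactness of realisations selects

`T` is an idempotent complete rigid tensor triangulated category, linear over a field `F` of
characteristic `0`, the `R i : T ⥤ D i` (`i ∈ I`, `I` nonempty) are triangulated tensor functors to
tensor triangulated categories with t-structures `s i`, and `𝒞` is a class of objects of `T`, with
the formal properties listed in `Setup`, and `Lefschetz` (hard Lefschetz); there are a nonzero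
object `E` of `𝒞` with realisations in degree `1`, and an object `L` of `𝒞` with realisations in
degree `-2` and a nonzero morphism `1 ⟶ L[-1]`.
(For the problem : `T = DM_c(k)`, `F = ℚ`, `I` = the primes `ℓ ≠ char k`, `R ℓ` the `ℓ`-adic
realisation, `𝒞` = the Chow motives, `E = h¹` of an elliptic curve, `L = 1(1)[2]`, so that
`Hom(1, L[-1])` is the tensor product of the multiplicative group of `k` with `ℚ`; it is nonzero
iff `k` is not algebraic over a finite field.)

For an integer `c` let `Vanishing c` say : `Hom(1, X[m]) = 0` if `X` is a Chow motive with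
realisations in degree `d` and `m ≤ c * d`, except for `d = m = 0`. (For `d < 0` this is a
Beilinson-Soulé type vanishing of slope `c`.) A t-structure is `Stretched c`, or of slope `c`, if
its heart contains `X[c * d]` for all these `X`.

1. The motivic t-structure (Q1) exists iff Kuenneth decompositions, `NumericalZero` and
   `Vanishing 1` hold; and `Vanishing c` implies `Vanishing (c + 1)` and the boundary vanishing
   `Boundary (c + 1)` for `c ≥ 1`.
2. If Kuenneth decompositions and `NumericalZero` hold, then each t-structure on `T` for which the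
   tensor product is t-exact, and the heart of which contains a shift of every Chow motive with
   realisations in one degree, has exactly one slope `c`, and `c ≥ 1`.
3. If moreover `Vanishing c` holds, there is exactly one t-structure of slope `c`; it is
   non-degenerate, bounded and compatible with the tensor product; for each `i` the realisation
   `R i` is t-exact iff `c = 1`; and the heart is semisimple iff `Boundary c` holds.

So if Q1 holds for a field `k` not algebraic over a finite field, the t-structures of 2 form a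
sequence `t_1, t_2, t_3, …`, all non-degenerate and bounded; `t_1` is the motivic one, the heart of
`t_c` is semisimple for `c ≥ 2`, and the exactness of one `R i` is what singles out `t_1`.
-/

open CategoryTheory Limits MonoidalCategory Triangulated Pretriangulated

namespace Pool.Agent.Results.MP_6d0ce9_ag.StretchedTStructures

open Pool.Agent.W492.MT
open Pool.Agent.H937.PT (Vanishing Boundary NumericalZero Stretched SemisimpleHeart
  PureConcentrated)

universe v u v' u' w

theorem result {T : Type u} [Category.{v} T] [HasZeroObject T] [HasShift T ℤ] [Preadditive T]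
    [∀ n : ℤ, (shiftFunctor T n).Additive] [Pretriangulated T] [IsTriangulated T]
    [IsIdempotentComplete T] [MonoidalCategory T] [SymmetricCategory T] [RightRigidCategory T]
    [∀ X : T, (tensorLeft X).CommShift ℤ] [∀ X : T, (tensorLeft X).IsTriangulated]
    [MonoidalPreadditive T] {F : Type} [Field F] [CharZero F] [Linear F T] [MonoidalLinear F T]
    {I : Type w} [Nonempty I] {D : I → Type u'} [∀ i, Category.{v'} (D i)]
    [∀ i, HasZeroObject (D i)] [∀ i, HasShift (D i) ℤ] [∀ i, Preadditive (D i)]
    [∀ i, ∀ n : ℤ, (shiftFunctor (D i) n).Additive] [∀ i, Pretriangulated (D i)]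
    [∀ i, IsTriangulated (D i)] [∀ i, MonoidalCategory (D i)] [∀ i, MonoidalPreadditive (D i)]
    (R : ∀ i, T ⥤ D i) [∀ i, (R i).CommShift ℤ] [∀ i, (R i).IsTriangulated]
    [∀ i, (R i).Monoidal] (s : ∀ i, TStructure (D i)) (𝒞 : ObjectProperty T)
    (h : Setup R s 𝒞 F) (hL : Lefschetz R s 𝒞)
    (E : T) (hE : 𝒞 E) (hE1 : InDeg R s 1 E) (hE0 : ¬ IsZero E)
    (L : T) (hLC : 𝒞 L) (hLd : InDeg R s (-2) L) (u : 𝟙_ T ⟶ L⟦(-1 : ℤ)⟧) (hu : u ≠ 0) :
    ((∃ t : TStructure T, NonDegenerate t ∧ TensorExact t ∧ ∀ i, TExact t (s i) (R i)) ↔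
      Kunneth R s 𝒞 ∧ NumericalZero R s 𝒞 ∧ Vanishing R s 𝒞 1) ∧
    (∀ c : ℤ, 1 ≤ c → Vanishing R s 𝒞 c →
      Vanishing R s 𝒞 (c + 1) ∧ Boundary R s 𝒞 (c + 1)) ∧
    (Kunneth R s 𝒞 → NumericalZero R s 𝒞 →
      (∀ t : TStructure T, TensorExact t → PureConcentrated R s 𝒞 t →
        ∃ c : ℤ, 1 ≤ c ∧ Stretched R s 𝒞 c t ∧ ∀ c' : ℤ, Stretched R s 𝒞 c' t → c' = c) ∧
      ∀ c : ℤ, Vanishing R s 𝒞 c →
        ∃ t : TStructure T, Stretched R s 𝒞 c t ∧ NonDegenerate t ∧ Bounded t ∧ TensorExact t ∧
          (∀ t' : TStructure T, Stretched R s 𝒞 c t' → t' = t) ∧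
          (∀ i, TExact t (s i) (R i) ↔ c = 1) ∧ (SemisimpleHeart t ↔ Boundary R s 𝒞 c)) := by
  refine ⟨Pool.Agent.H937.PT.vanishing_one h hL,
    fun c hc hV => ⟨Pool.Agent.H937.PT.vanishing_succ h (by omega) hV,
      Pool.Agent.H937.PT.boundary_succ hV⟩, fun hK hN => ⟨fun t h1 h2 => ?_, fun c hV => ?_⟩⟩
  · obtain ⟨c, hc⟩ := Pool.Agent.H937.PT.exists_slope h hN h1 h2 hE hE1 hE0
    exact ⟨c, Pool.Agent.H937.PT.slope_pos h hc hLC hLd hu, hc, fun c' hc' =>
      Pool.Agent.H937.PT.slope_unique hE hE1 one_ne_zero hE0 hc' hc⟩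
  · obtain ⟨t, h1, h2, h3, h4, h5⟩ := Pool.Agent.H937.PT.exists_stretched h hK hN hV
    have hc := Pool.Agent.H937.PT.slope_pos h h1 hLC hLd hu
    refine ⟨t, h1, h2, h3, h4, h5, fun i =>
      Pool.Agent.H937.PT.exact_iff h hL hE hE1 one_ne_zero hE0 hK hN hV h1 i, fun hs => ?_,
      fun hB => ?_⟩
    · exact ((Pool.Agent.H937.PT.semisimple_iff h hc hK).1 ⟨t, h1, hs⟩).2.2
    · obtain ⟨t', h6, h7⟩ := (Pool.Agent.H937.PT.semisimple_iff h hc hK).2 ⟨hN, hV, hB⟩
      exact h5 t' h6 ▸ h7

end Pool.Agent.Results.MP_6d0ce9_ag.StretchedTStructures
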